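import Pool.Agent.W2helper42.TQ.Stm

set_option autoImplicit false

/-! Piece DBL of the project TQ. -/

namespace Pool.Agent.W2helper6.TQ

open MvPolynomial

theorem adj_ext {R S : Type} [CommRing R] [CommRing S] {p : Polynomial R}
    (f g : AdjoinRoot p →+* S) (h1 : ∀ r, f (AdjoinRoot.of p r) = g (AdjoinRoot.of p r))
    (h2 : f (AdjoinRoot.root p) = g (AdjoinRoot.root p)) : f = g := by
  have h3 : f.comp (AdjoinRoot.mk p) = g.comp (AdjoinRoot.mk p) := by
    apply Polynomial.ringHom_ext
    · intro r
      exact h1 r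
    · exact h2
  apply RingHom.ext
  intro x
  obtain ⟨y, rfl⟩ := AdjoinRoot.mk_surjective x
  exact RingHom.congr_fun h3 y

theorem piece_DBL : Pool.Agent.W2helper42.TQ.S_DBL := by
  intro R σ _ I b c
  set q : Polynomial R := Polynomial.X ^ 2 + Polynomial.C b * Polynomial.X + Polynomial.C c
    with hq
  set f1 : Polynomial (MvPolynomial σ R ⧸ I) := Polynomial.X ^ 2 +
        Polynomial.C (Ideal.Quotient.mk I (C b)) * Polynomial.X +
        Polynomial.C (Ideal.Quotient.mk I (C c)) with hf1
  set J : Ideal (MvPolynomial σ (AdjoinRoot q)) := I.map (MvPolynomial.map (AdjoinRoot.of q))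
    with hJ
  -- relation of the root of `q`
  have hr : (AdjoinRoot.root q) ^ 2 + AdjoinRoot.of q b * AdjoinRoot.root q
      + AdjoinRoot.of q c = 0 := by
    have h := AdjoinRoot.eval₂_root q
    rw [hq] at h
    simpa [Polynomial.eval₂_add, Polynomial.eval₂_mul, Polynomial.eval₂_pow] using h
  have hr1 : (AdjoinRoot.root f1) ^ 2
      + AdjoinRoot.of f1 (Ideal.Quotient.mk I (C b)) * AdjoinRoot.root f1
      + AdjoinRoot.of f1 (Ideal.Quotient.mk I (C c)) = 0 := by
    have h := AdjoinRoot.eval₂_root f1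
    rw [hf1] at h
    simpa [Polynomial.eval₂_add, Polynomial.eval₂_mul, Polynomial.eval₂_pow] using h
  -- forward
  let i : (MvPolynomial σ R ⧸ I) →+* (MvPolynomial σ (AdjoinRoot q) ⧸ J) :=
    Ideal.Quotient.lift I ((Ideal.Quotient.mk J).comp (MvPolynomial.map (AdjoinRoot.of q)))
      (by
        intro a ha
        rw [RingHom.comp_apply, Ideal.Quotient.eq_zero_iff_mem]
        exact Ideal.mem_map_of_mem _ ha)
  have hi : ∀ a, i (Ideal.Quotient.mk I a)
      = Ideal.Quotient.mk J (MvPolynomial.map (AdjoinRoot.of q) a) := fun a => rfl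
  let F : AdjoinRoot f1 →+* (MvPolynomial σ (AdjoinRoot q) ⧸ J) :=
    AdjoinRoot.lift i (Ideal.Quotient.mk J (C (AdjoinRoot.root q))) (by
      rw [hf1]
      simp only [Polynomial.eval₂_add, Polynomial.eval₂_mul, Polynomial.eval₂_pow,
        Polynomial.eval₂_X, Polynomial.eval₂_C, hi, MvPolynomial.map_C]
      rw [← map_pow, ← map_mul, ← map_add, ← map_add, ← map_pow, ← map_mul, ← map_add,
        ← map_add, hr, map_zero, map_zero])
  -- backward
  let g : AdjoinRoot q →+* AdjoinRoot f1 :=
    AdjoinRoot.lift ((AdjoinRoot.of f1).comp ((Ideal.Quotient.mk I).comp C))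
      (AdjoinRoot.root f1) (by
      rw [hq]
      simp only [Polynomial.eval₂_add, Polynomial.eval₂_mul, Polynomial.eval₂_pow,
        Polynomial.eval₂_X, Polynomial.eval₂_C, RingHom.comp_apply]
      exact hr1)
  let G0 : MvPolynomial σ (AdjoinRoot q) →+* AdjoinRoot f1 :=
    MvPolynomial.eval₂Hom g (fun s => AdjoinRoot.of f1 (Ideal.Quotient.mk I (X s)))
  have hG0 : ∀ a : MvPolynomial σ R, G0 (MvPolynomial.map (AdjoinRoot.of q) a)
      = AdjoinRoot.of f1 (Ideal.Quotient.mk I a) := by
    have h : G0.comp (MvPolynomial.map (AdjoinRoot.of q))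
        = (AdjoinRoot.of f1).comp (Ideal.Quotient.mk I) := by
      apply MvPolynomial.ringHom_ext
      · intro r
        simp [G0, g]
      · intro s
        simp [G0]
    intro a
    exact RingHom.congr_fun h a
  let G : (MvPolynomial σ (AdjoinRoot q) ⧸ J) →+* AdjoinRoot f1 :=
    Ideal.Quotient.lift J G0 (by
      intro a ha
      have hle : J ≤ RingHom.ker G0 := by
        rw [hJ, Ideal.map_le_iff_le_comap]
        intro x hx
        rw [Ideal.mem_comap, RingHom.mem_ker, hG0]
        have : Ideal.Quotient.mk I x = 0 := Ideal.Quotient.eq_zero_iff_mem.2 hx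
        rw [this, map_zero]
      exact hle ha)
  refine ⟨RingEquiv.ofRingHom F G ?_ ?_⟩
  · apply Ideal.Quotient.ringHom_ext
    apply MvPolynomial.ringHom_ext
    · intro a
      have h1 : (F.comp g) = (Ideal.Quotient.mk J).comp C := by
        apply adj_ext
        · intro r
          simp only [RingHom.comp_apply, g, AdjoinRoot.lift_of, F, hi, MvPolynomial.map_C]
        · simp only [RingHom.comp_apply, g, AdjoinRoot.lift_root, F]
      have h2 : G (Ideal.Quotient.mk J (C a)) = g a := by
        simp only [G, Ideal.Quotient.lift_mk, G0, MvPolynomial.eval₂Hom_C]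
      simp only [RingHom.comp_apply, h2, RingHom.id_apply]
      exact RingHom.congr_fun h1 a
    · intro s
      have h2 : G (Ideal.Quotient.mk J (X s)) = AdjoinRoot.of f1 (Ideal.Quotient.mk I (X s)) := by
        simp only [G, Ideal.Quotient.lift_mk, G0, MvPolynomial.eval₂Hom_X']
      simp only [RingHom.comp_apply, h2, RingHom.id_apply, F, AdjoinRoot.lift_of, hi,
        MvPolynomial.map_X]
  · apply adj_ext
    · intro r
      obtain ⟨a, rfl⟩ := Ideal.Quotient.mk_surjective r
      simp only [RingHom.comp_apply, F, AdjoinRoot.lift_of, hi, G, Ideal.Quotient.lift_mk, hG0,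
        RingHom.id_apply]
    · simp only [RingHom.comp_apply, F, AdjoinRoot.lift_root, G, Ideal.Quotient.lift_mk, G0,
        MvPolynomial.eval₂Hom_C, g, RingHom.id_apply]

end Pool.Agent.W2helper6.TQ
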